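import Pool.Agent.Lib.MP_9a49d2_co.Main

set_option autoImplicit false
open MeasureTheory Set

namespace Pool.Agent.Results.MP_9a49d2_co.HexCounter

open Pool.Agent.Lib.MP_9a49d2_co

/-- There are a convex disk `K` and a covering of the plane by congruent copies of `K` whose upper
density (total area of the copies inside the disk of radius `r`, divided by the area of that disk)
is strictly smaller than `A(K) / h(K)`. -/
theorem result :
    ∃ K : Set (EuclideanSpace ℝ (Fin 2)), Convex ℝ K ∧ IsCompact K ∧ (interior K).Nonempty ∧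
      ∃ (ι : Type) (g : ι → IsometryEquiv (EuclideanSpace ℝ (Fin 2)) (EuclideanSpace ℝ (Fin 2))),
        (⋃ i, (g i) '' K) = Set.univ ∧
        Filter.limsup
            (fun r : ℝ =>
              (∑' i : ι, volume ((g i) '' K ∩ Metric.ball (0 : EuclideanSpace ℝ (Fin 2)) r))
                / volume (Metric.ball (0 : EuclideanSpace ℝ (Fin 2)) r))
            Filter.atTop
          < volume K /
            (⨆ (p : Fin 6 → EuclideanSpace ℝ (Fin 2)) (_ : ∀ j, p j ∈ K),
              volume (convexHull ℝ (Set.range p))) := by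
  refine ⟨KE, KE_convex, KE_compact, KE_interior, _, gE, gE_cover, ?_⟩
  refine lt_of_le_of_lt ?_ (strict.trans_le (ENNReal.div_le_div_left (iSup₂_le hexE) _))
  obtain ⟨D, hD⟩ := Metric.isBounded_iff.mp KE_compact.isBounded
  have D0 : 0 ≤ D := by
    obtain ⟨x, hx⟩ := KE_interior
    simpa using hD (interior_subset hx) (interior_subset hx)
  refine Filter.limsup_le_of_le (by isBoundedDefault) ?_
  filter_upwards [Filter.eventually_ge_atTop (100000 * (D + 10000) : ℝ)] with r hr
  have h1 : (∑' i, volume (gE i '' KE ∩ Metric.ball (0 : E2) r)) ≤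
      ∑' i : {i : Fin 4 × ℤ × ℤ // gE i '' KE ⊆ Metric.ball (0 : E2) (r + D)},
        volume (gE i.1 '' KE) := by
    have := tsum_subtype {i : Fin 4 × ℤ × ℤ | gE i '' KE ⊆ Metric.ball (0 : E2) (r + D)}
      (fun i => volume (gE i '' KE))
    refine le_of_le_of_eq (ENNReal.tsum_le_tsum fun i => ?_) this.symm
    rcases (gE i '' KE ∩ Metric.ball (0 : E2) r).eq_empty_or_nonempty with he | ⟨_, ⟨x, hx, rfl⟩, h⟩
    · simp [he]
    · rw [indicator_of_mem]
      · exact measure_mono inter_subset_left
      · rintro _ ⟨y, hy, rfl⟩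
        rw [Metric.mem_ball] at h ⊢
        have := hD hy hx
        rw [← (gE i).dist_eq] at this
        linarith [dist_triangle (gE i y) (gE i x) 0]
  refine ENNReal.div_le_of_le_mul (h1.trans ((count_le (r + D)).trans ?_))
  rw [EuclideanSpace.volume_ball_fin_two, EuclideanSpace.volume_ball_fin_two, ← mul_assoc,
    ← mul_assoc]
  gcongr ?_ * _
  rw [div_eq_mul_inv, div_eq_mul_inv, mul_assoc, mul_assoc]
  gcongr _ * ?_
  rw [← ENNReal.ofReal_inv_of_pos (by norm_num), ← ENNReal.ofReal_inv_of_pos (by norm_num),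
    ← ENNReal.ofReal_pow (by linarith), ← ENNReal.ofReal_pow (by linarith),
    ← ENNReal.ofReal_mul (by norm_num), ← ENNReal.ofReal_mul (by norm_num)]
  refine ENNReal.ofReal_le_ofReal ?_
  have h2 : r + D + 10000 ≤ 100001 / 100000 * r := by linarith
  have h3 : (r + D + 10000) ^ 2 ≤ (100001 / 100000 * r) ^ 2 :=
    pow_le_pow_left₀ (by linarith) h2 2
  nlinarith [sq_nonneg r]

end Pool.Agent.Results.MP_9a49d2_co.HexCounter
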